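import Pool.Agent.K4H33.SD.Grp

/-! Characters, and the fields `K'`, `E'` attached to a character of order four. -/

set_option autoImplicit false
set_option linter.style.haveILetI false

namespace Pool.Agent.K4H33.SD
open NumberField Module IntermediateField Pool.Agent.K4H33.SK
open Pool.Agent.K4H33.SK.Stmt (Sub Ideals nrm Cop)

section
variable {ι : Qbar →+* ℂ} {F K H : Sub} {n : ℕ} {c : GQ} {χ : GQ → ℂ}

lemma IsChar.map_one (h : IsChar K H χ) : χ 1 = 1 := h.one 1 (Fixes.one K) (Fixes.one H)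

lemma IsChar.inv_mul (h : IsChar K H χ) {σ : GQ} (hσ : Fixes K σ) : χ σ⁻¹ * χ σ = 1 := by
  rw [← h.mul _ _ hσ.inv hσ, inv_mul_cancel, h.map_one]

lemma IsChar.ne_zero (h : IsChar K H χ) {σ : GQ} (hσ : Fixes K σ) : χ σ ≠ 0 := by
  intro h0
  have h1 := h.inv_mul hσ
  rw [h0, mul_zero] at h1
  exact zero_ne_one h1

lemma IsChar.inv (h : IsChar K H χ) {σ : GQ} (hσ : Fixes K σ) : χ σ⁻¹ = (χ σ)⁻¹ :=
  eq_inv_of_mul_eq_one_left (h.inv_mul hσ)

lemma IsChar.congr (h : IsChar K H χ) {σ τ : GQ} (hσ : Fixes K σ) (hτ : Fixes K τ)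
    (hστ : ∀ x ∈ H, σ x = τ x) : χ σ = χ τ := by
  have h1 : χ (τ⁻¹ * σ) = 1 := h.one _ (hτ.inv.mul hσ) (agree_iff.1 hστ)
  have h2 := h.mul τ (τ⁻¹ * σ) hτ (hτ.inv.mul hσ)
  rw [mul_inv_cancel_left, h1, mul_one] at h2
  exact h2

variable (S : Setup ι F K H n c)
include S

lemma IsChar.c_conj (h : IsChar K H χ) {τ : GQ} (hτ : Fixes K τ) : χ (c * τ * c) = (χ τ)⁻¹ := by
  rw [← h.inv hτ]
  refine h.congr (c_conj_K S hτ) hτ.inv fun x hx => ?_
  rw [AlgEquiv.mul_apply, AlgEquiv.mul_apply, c_mul S hτ (H_mem S (c_F S) hx), cc_apply S]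

lemma IsChar.pow_four (h : IsChar K H χ) {τ : GQ} (hτ : Fixes K τ) : (χ τ) ^ 4 = 1 := by
  have h1 : χ (τ ^ 4) = 1 := by
    rw [h.congr (hτ.pow 4) (Fixes.one K) fun x hx => S.dih.exp_four τ hτ x hx, h.map_one]
  have h2 : τ ^ 4 = τ * (τ * (τ * τ)) := by simp only [pow_succ, pow_zero, one_mul, mul_assoc]
  rw [h2, h.mul _ _ hτ (hτ.mul (hτ.mul hτ)), h.mul _ _ hτ (hτ.mul hτ), h.mul _ _ hτ hτ] at h1
  rw [← h1]
  ring

/-- The field fixed by the automorphisms `τ` and `c τ` with `P (χ τ)`. -/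
lemma exists_field (h : IsChar K H χ) (P : ℂ → Prop) (P1 : P 1)
    (Pm : ∀ a b, P a → P b → P (a * b)) (Pi : ∀ a, P a → P a⁻¹) :
    ∃ L : Sub, FiniteDimensional ℚ L ∧
      ∀ σ : GQ, Fixes L σ ↔ ∃ τ, Fixes K τ ∧ P (χ τ) ∧ (σ = τ ∨ σ = c * τ) := by
  have hcc := cc S
  let Γ : Subgroup GQ :=
    { carrier := {σ | ∃ τ, Fixes K τ ∧ P (χ τ) ∧ (σ = τ ∨ σ = c * τ)}
      one_mem' := ⟨1, Fixes.one K, by rw [h.map_one]; exact P1, Or.inl rfl⟩
      mul_mem' := by
        rintro σ σ' ⟨τ, h1, h2, h3⟩ ⟨τ', h1', h2', h3'⟩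
        rcases h3 with rfl | rfl
        · rcases h3' with rfl | rfl
          · exact ⟨_, h1.mul h1', by rw [h.mul _ _ h1 h1']; exact Pm _ _ h2 h2', Or.inl rfl⟩
          · refine ⟨(c * σ * c) * τ', (c_conj_K S h1).mul h1', ?_, Or.inr ?_⟩
            · rw [h.mul _ _ (c_conj_K S h1) h1', h.c_conj S h1]
              exact Pm _ _ (Pi _ h2) h2'
            · calc σ * (c * τ') = (c * c) * σ * c * τ' := by rw [hcc]; group
                _ = _ := by group
        · rcases h3' with rfl | rfl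
          · exact ⟨_, h1.mul h1', by rw [h.mul _ _ h1 h1']; exact Pm _ _ h2 h2',
              Or.inr (by group)⟩
          · refine ⟨(c * τ * c) * τ', (c_conj_K S h1).mul h1', ?_, Or.inl (by group)⟩
            rw [h.mul _ _ (c_conj_K S h1) h1', h.c_conj S h1]
            exact Pm _ _ (Pi _ h2) h2'
      inv_mem' := by
        rintro σ ⟨τ, h1, h2, h3⟩
        rcases h3 with rfl | rfl
        · exact ⟨σ⁻¹, h1.inv, by rw [h.inv h1]; exact Pi _ h2, Or.inl rfl⟩
        · refine ⟨c * τ⁻¹ * c, c_conj_K S h1.inv, ?_, Or.inr ?_⟩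
          · rw [h.c_conj S h1.inv, h.inv h1, inv_inv]
            exact h2
          · rw [mul_inv_rev, c_inv S]
            calc τ⁻¹ * c = (c * c) * τ⁻¹ * c := by rw [hcc]; group
              _ = _ := by group }
  have hΓ : ∀ σ, σ ∈ Γ ↔ ∃ τ, Fixes K τ ∧ P (χ τ) ∧ (σ = τ ∨ σ = c * τ) := fun σ => Iff.rfl
  have hle : H.fixingSubgroup ≤ Γ := by
    intro σ hσ
    have hσH : Fixes H σ := fixes_iff.2 hσ
    have hσK : Fixes K σ := hσH.mono S.dih.le
    exact ⟨σ, hσK, by rw [h.one σ hσK hσH]; exact P1, Or.inl rfl⟩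
  haveI := S.dih.finite
  have hopen : IsOpen (Γ : Set GQ) := Subgroup.isOpen_mono hle H.fixingSubgroup_isOpen
  have hclosed : IsClosed (Γ : Set GQ) := Subgroup.isClosed_of_isOpen Γ hopen
  have hfix : (IntermediateField.fixedField Γ).fixingSubgroup = Γ :=
    InfiniteGalois.fixingSubgroup_fixedField (⟨Γ, hclosed⟩ : ClosedSubgroup GQ)
  refine ⟨IntermediateField.fixedField Γ, ?_, ?_⟩
  · have hLH : IntermediateField.fixedField Γ ≤ H := by
      intro x hx
      apply mem_of_fixed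
      intro σ hσ
      exact (IntermediateField.mem_fixedField_iff Γ x).1 hx σ (hle (fixes_iff.1 hσ))
    exact FiniteDimensional.of_injective (IntermediateField.inclusion hLH).toLinearMap
      (IntermediateField.inclusion hLH).injective
  · intro σ
    rw [fixes_iff, hfix]
    exact hΓ σ

/-- The companion fields and character exist. -/
lemma exists_companion (h : IsChar K H χ) : ∃ (K' E' : Sub) (χ' : GQ → ℂ), NumberField K' ∧
    Companion ι K χ c K' E' χ' := by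
  classical
  obtain ⟨K', h1, h2⟩ := exists_field S h (fun z => z ^ 2 = 1) (one_pow 2)
    (fun a b ha hb => by rw [mul_pow, ha, hb, one_mul])
    (fun a ha => by rw [inv_pow, ha, inv_one])
  obtain ⟨E', h3, h4⟩ := exists_field S h (fun z => z = 1) rfl
    (fun a b ha hb => by rw [ha, hb, one_mul])
    (fun a ha => by rw [ha, inv_one])
  refine ⟨K', E', fun σ => if Fixes K σ then χ σ else χ (c * σ), ⟨⟩, S.conj, h2, h4, ?_⟩
  intro τ hτ _
  have h5 : ¬ Fixes K (c * τ) := not_K_mul S (c_K S) hτ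
  simp only [if_pos hτ, if_neg h5]
  refine ⟨trivial, ?_⟩
  rw [← mul_assoc, cc S, one_mul]

end

end Pool.Agent.K4H33.SD
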