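import Mathlib

/-! Fourier inversion on a finite abelian group. -/

set_option autoImplicit false
set_option linter.style.haveILetI false

namespace Pool.Agent.K4H33.SD

section
variable {A : Type*} [CommGroup A] [Finite A]

instance : Finite (A →* ℂˣ) := by
  haveI : NeZero (Monoid.exponent A) := ⟨Monoid.exponent_ne_zero_of_finite⟩
  obtain ⟨e⟩ := CommGroup.monoidHom_mulEquiv_of_hasEnoughRootsOfUnity A ℂ
  exact Finite.of_equiv A e.symm.toEquiv

lemma card_dual : Nat.card (A →* ℂˣ) = Nat.card A := by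
  haveI : NeZero (Monoid.exponent A) := ⟨Monoid.exponent_ne_zero_of_finite⟩
  exact CommGroup.card_monoidHom_of_hasEnoughRootsOfUnity A ℂ

lemma sum_char [Fintype (A →* ℂˣ)] (a : A) [Decidable (a = 1)] :
    ∑ χ : A →* ℂˣ, ((χ a : ℂˣ) : ℂ) = if a = 1 then (Nat.card A : ℂ) else 0 := by
  split_ifs with h
  · subst h
    simp only [map_one, Units.val_one, Finset.sum_const, Finset.card_univ, nsmul_eq_mul, mul_one]
    rw [← card_dual, Nat.card_eq_fintype_card]
  · haveI : NeZero (Monoid.exponent A) := ⟨Monoid.exponent_ne_zero_of_finite⟩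
    obtain ⟨φ, hφ⟩ := CommGroup.exists_apply_ne_one_of_hasEnoughRootsOfUnity A ℂ h
    have h1 : ∑ χ : A →* ℂˣ, (((φ * χ) a : ℂˣ) : ℂ) = ∑ χ : A →* ℂˣ, ((χ a : ℂˣ) : ℂ) :=
      Fintype.sum_equiv (Equiv.mulLeft φ) _ _ fun χ => rfl
    simp only [MonoidHom.mul_apply, Units.val_mul] at h1
    rw [← Finset.mul_sum] at h1
    have h2 : ((φ a : ℂˣ) : ℂ) ≠ 1 := fun h3 => hφ (Units.ext h3)
    have h3 : (((φ a : ℂˣ) : ℂ) - 1) * ∑ χ : A →* ℂˣ, ((χ a : ℂˣ) : ℂ) = 0 := by
      rw [sub_mul, h1, one_mul, sub_self]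
    exact (mul_eq_zero.1 h3).resolve_left (sub_ne_zero.2 h2)

lemma sum_char_inv [Fintype (A →* ℂˣ)] (a b : A) [Decidable (a = b)] :
    ∑ χ : A →* ℂˣ, (((χ a)⁻¹ : ℂˣ) : ℂ) * ((χ b : ℂˣ) : ℂ) =
      if a = b then (Nat.card A : ℂ) else 0 := by
  classical
  have h1 := sum_char (a⁻¹ * b)
  have h2 : (a⁻¹ * b = 1) ↔ a = b := by rw [inv_mul_eq_one]
  simp only [h2, map_mul, map_inv, Units.val_mul] at h1
  rw [h1]
end

/-- Pairing the elements of order greater than two with their inverses. -/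
lemma exists_half {X : Type*} [CommGroup X] [Fintype X] [DecidableEq X] : ∃ P : Finset X,
    (∀ χ ∈ P, χ ^ 2 ≠ 1) ∧ ∀ f : X → ℂ,
      ∑ χ ∈ Finset.univ.filter (fun χ : X => χ ^ 2 ≠ 1), f χ = ∑ χ ∈ P, (f χ + f χ⁻¹) := by
  classical
  letI : LinearOrder X := linearOrderOfSTO WellOrderingRel
  set S : Finset X := Finset.univ.filter (fun χ : X => χ ^ 2 ≠ 1) with hS
  refine ⟨S.filter (fun χ => χ < χ⁻¹), ?_, ?_⟩
  · intro χ hχ
    exact (Finset.mem_filter.1 (Finset.mem_filter.1 hχ).1).2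
  · intro f
    rw [Finset.sum_add_distrib, ← Finset.sum_filter_add_sum_filter_not S (fun χ => χ < χ⁻¹)]
    congr 1
    refine Finset.sum_nbij' (fun χ => χ⁻¹) (fun χ => χ⁻¹) ?_ ?_ ?_ ?_ ?_
    · intro χ hχ
      rw [Finset.mem_filter, hS, Finset.mem_filter] at hχ ⊢
      refine ⟨⟨Finset.mem_univ _, ?_⟩, ?_⟩
      · rw [inv_pow]
        exact fun h => hχ.1.2 (inv_eq_one.1 h)
      · rw [inv_inv]
        refine lt_of_le_of_ne (not_lt.1 hχ.2) ?_
        intro h
        apply hχ.1.2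
        rw [pow_two]
        nth_rewrite 1 [← h]
        exact inv_mul_cancel χ
    · intro χ hχ
      rw [Finset.mem_filter, hS, Finset.mem_filter] at hχ ⊢
      refine ⟨⟨Finset.mem_univ _, ?_⟩, ?_⟩
      · rw [inv_pow]
        exact fun h => hχ.1.2 (inv_eq_one.1 h)
      · rw [inv_inv]
        exact not_lt.2 hχ.2.le
    · intro χ _
      exact inv_inv χ
    · intro χ _
      exact inv_inv χ
    · intro χ _
      simp

end Pool.Agent.K4H33.SD
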