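import Pool.Agent.K4H33.SQ.Quartic
import Pool.Agent.K4H33.SD.Dual

/-! Definitions: characters, `L`-functions, relative units of quadratic extensions. -/

set_option autoImplicit false
set_option linter.style.haveILetI false

namespace Pool.Agent.K4H33.SD
open NumberField Module IntermediateField Pool.Agent.K4H33.SK
open Pool.Agent.K4H33.SK.Stmt (Sub Ideals nrm Cop)

/-- `χ` is a character of `Gal(H/K)`, regarded as a function on the automorphisms of `Qbar` which
fix `K`. -/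
structure IsChar (K H : Sub) (χ : GQ → ℂ) : Prop where
  mul : ∀ σ τ : GQ, Fixes K σ → Fixes K τ → χ (σ * τ) = χ σ * χ τ
  one : ∀ σ : GQ, Fixes K σ → Fixes H σ → χ σ = 1

/-- The `n`-th coefficient of `L(s, χ)`: the sum of the values of `χ` at the Artin symbols of the
ideals of norm `n` prime to `𝔪`. -/
noncomputable def coef (K : Sub) [NumberField K] (𝔪 : Ideals K) (art : Ideals K → GQ)
    (χ : GQ → ℂ) (n : ℕ) : ℂ :=
  ∑ᶠ 𝔟 ∈ {𝔟 : Ideals K | nrm K 𝔟 = n ∧ Cop K 𝔟 𝔪}, χ (art 𝔟)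

/-- `L` is the continuation, holomorphic away from `s = 1`, of the Dirichlet series
`∑ a n / n ^ s`, which converges for `Re s > 1`. -/
def IsLfun (a : ℕ → ℂ) (L : ℂ → ℂ) : Prop :=
  DifferentiableOn ℂ L {1}ᶜ ∧ ∀ s : ℂ, 1 < s.re → LSeriesHasSum a s (L s)

/-- The embedding `w` does not induce the same place of `K` as `ι`. -/
def OtherPlace (ι : Qbar →+* ℂ) (K : Sub) (w : Qbar →+* ℂ) : Prop :=
  (∃ x ∈ K, w x ≠ ι x) ∧ ∃ x ∈ K, w x ≠ (starRingEnd ℂ) (ι x)

/-- For a quadratic character `χ` of `K`, with quadratic extension `E`: `θ` is a unit of `E` with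
relative norm one, of absolute value one at all places not above the place of `K` given by `ι`. -/
structure RelUnit (ι : Qbar →+* ℂ) (K : Sub) (χ : GQ → ℂ) (θ : Qbar) : Prop where
  ne : θ ≠ 0
  int : IsIntegral ℤ θ
  inv_int : IsIntegral ℤ θ⁻¹
  fixed : ∀ σ : GQ, Fixes K σ → χ σ = 1 → σ θ = θ
  moved : ∀ σ : GQ, Fixes K σ → χ σ = -1 → σ θ = θ⁻¹
  norm : ∀ w : Qbar →+* ℂ, OtherPlace ι K w → ‖w θ‖ = 1

/-- The class number formula for a quadratic extension `E/K`, with quadratic character `χ`, in which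
the place `v` given by `ι`, of local degree `d`, splits: `L(0, χ) = 0`, and
`w L'(0, χ) = - 2 ^ e log |θ|_v` for a relative unit `θ`, if `w` is the number of roots of unity
of `E` and `S` has at least `e + 2` elements, one of which is a real place other than `v`; here `S`
is the set of the infinite places and the primes dividing `𝔪`, and it contains the places which
ramify in `E`. -/
def QuadraticFormula (ι : Qbar →+* ℂ) (K : Sub) [NumberField K] (𝔪 : Ideals K)
    (art : Ideals K → GQ) (χ : GQ → ℂ) (d e w : ℕ) : Prop :=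
  ∃ (L : ℂ → ℂ) (θ : Qbar), IsLfun (coef K 𝔪 art χ) L ∧ L 0 = 0 ∧ RelUnit ι K χ θ ∧
    (w : ℂ) * deriv L 0 = -(2 : ℂ) ^ e * (Real.log (‖ι θ‖ ^ d) : ℂ)

/-- `w` is the number of roots of unity of the extension of `K` cut out by `χ`. -/
def RootsOf (K : Sub) (χ : GQ → ℂ) (w : ℕ) : Prop :=
  0 < w ∧ ∀ ξ : Qbar,
    ((∃ m : ℕ, 0 < m ∧ ξ ^ m = 1) ∧ ∀ σ : GQ, Fixes K σ → χ σ = 1 → σ ξ = ξ) ↔ ξ ^ w = 1

/-- For a character `χ` of order four of `K`, cutting out the cyclic quartic extension `M` of `K`,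
and the complex conjugation `c` given by `ι`: `E'` is the maximal subfield of `M` which is real
under `ι`, and `K'` is its subfield fixed by the elements of order two of `Gal(M/K)`; `χ'` is the
quadratic character of `E'/K'`. -/
structure Companion (ι : Qbar →+* ℂ) (K : Sub) (χ : GQ → ℂ) (c : GQ) (K' E' : Sub)
    (χ' : GQ → ℂ) : Prop where
  conj : ∀ x, ι (c x) = (starRingEnd ℂ) (ι x)
  field : ∀ σ : GQ, Fixes K' σ ↔ ∃ τ, Fixes K τ ∧ (χ τ) ^ 2 = 1 ∧ (σ = τ ∨ σ = c * τ)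
  ext : ∀ σ : GQ, Fixes E' σ ↔ ∃ τ, Fixes K τ ∧ χ τ = 1 ∧ (σ = τ ∨ σ = c * τ)
  char : ∀ τ : GQ, Fixes K τ → (χ τ) ^ 2 = 1 → χ' τ = χ τ ∧ χ' (c * τ) = χ τ

/-- Artin's formalism `L(s, χ) = L(s, χ')`, on coefficients. -/
def ArtinFormalism (K : Sub) [NumberField K] (𝔪 : Ideals K) (art : Ideals K → GQ) (χ : GQ → ℂ)
    (K' E' : Sub) [NumberField K'] (𝔪' : Ideals K') (art' : Ideals K' → GQ) (χ' : GQ → ℂ) : Prop :=
  Stmt.IsArtin K' E' 𝔪' art' ∧ ∀ n : ℕ, coef K 𝔪 art χ n = coef K' 𝔪' art' χ' n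

/-- The number of primes of `F` below the primes of `K` dividing `𝔪`. -/
noncomputable def below (F K : Sub) [NumberField K] (𝔪 : Ideals K) : ℕ :=
  Set.ncard {T : Set Qbar | ∃ P : Ideals K, P.IsPrime ∧ 𝔪 ≤ P ∧
    T = {x | x ∈ F ∧ ∃ y ∈ P, (y : Qbar) = x}}

/-- For `K` quadratic over `F` with `2 n - 1` infinite places: the number of places of `K` in `S`
(the infinite places and the primes dividing `𝔪`) is at least `expo F K n 𝔪 + 2`. -/
noncomputable def expo (F K : Sub) [NumberField K] (n : ℕ) (𝔪 : Ideals K) : ℕ :=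
  2 * n - 3 + below F K 𝔪

/-- The classical inputs on the `L`-functions of the characters `χ` of `Gal(H/K)`, for
`e = expo F K n 𝔪`: the order of vanishing of the zeta function of `K`, the class number formula for
the quadratic extensions, and, for the characters of order four, Artin's formalism and the class
number formula for `E'/K'`, where `K'` has `2 n` infinite places, all of them real, and where `𝔪'`
is divisible by the primes of `K'` above the primes of `F` below `𝔪`. -/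
structure Inputs (ι : Qbar →+* ℂ) (K H : Sub) [NumberField K] (e : ℕ) (𝔪 : Ideals K)
    (art : Ideals K → GQ) : Prop where
  trivial : ∀ χ : GQ → ℂ, (∀ σ, Fixes K σ → χ σ = 1) →
    ∃ L : ℂ → ℂ, IsLfun (coef K 𝔪 art χ) L ∧ L 0 = 0 ∧ deriv L 0 = 0
  quadratic : ∀ (χ : GQ → ℂ) (w : ℕ), IsChar K H χ → (∀ σ, Fixes K σ → (χ σ) ^ 2 = 1) →
    (∃ σ, Fixes K σ ∧ χ σ ≠ 1) → RootsOf K χ w → QuadraticFormula ι K 𝔪 art χ 2 e w
  quartic : ∀ (χ : GQ → ℂ) (c : GQ) (K' E' : Sub) (χ' : GQ → ℂ) [NumberField K'],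
    IsChar K H χ → (∃ σ, Fixes K σ ∧ (χ σ) ^ 2 ≠ 1) → Companion ι K χ c K' E' χ' →
      ∃ (𝔪' : Ideals K') (art' : Ideals K' → GQ),
        ArtinFormalism K 𝔪 art χ K' E' 𝔪' art' χ' ∧
          QuadraticFormula ι K' 𝔪' art' χ' 1 (e + 1) 2

/-- `F` is totally real of degree `n ≥ 2` and `K` is a quadratic extension of `F` with exactly one
complex place, which is given by `ι`. -/
structure Fields (ι : Qbar →+* ℂ) (F K : Sub) (n : ℕ) : Prop where
  two_le : 2 ≤ n
  deg_F : finrank ℚ F = n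
  deg_K : finrank ℚ K = 2 * n
  le : F ≤ K
  real_F : ∀ w : Qbar →+* ℂ, ∀ x ∈ F, (w x).im = 0
  complex : ∃ x ∈ K, (ι x).im ≠ 0
  real_K : ∀ w : Qbar →+* ℂ, (∃ x ∈ F, w x ≠ ι x) → ∀ x ∈ K, (w x).im = 0

/-- `H` is normal over `F`, and its Galois group over `F` is generalized dihedral: the elements
outside of `Gal(H/K)` act on `Gal(H/K)` by inversion. The exponent of `Gal(H/K)` divides four. -/
structure Dihedral (F K H : Sub) : Prop where
  le : K ≤ H
  finite : FiniteDimensional ℚ H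
  normal : ∀ σ : GQ, Fixes F σ → ∀ x ∈ H, σ x ∈ H
  exp_four : ∀ τ : GQ, Fixes K τ → ∀ x ∈ H, (τ ^ 4) x = x
  inversion : ∀ σ τ : GQ, Fixes F σ → ¬ Fixes K σ → Fixes K τ → ∀ x ∈ H, σ (τ x) = τ⁻¹ (σ x)

/-- `𝔣` is a nonzero ideal divisible by all primes dividing `𝔪`. -/
def PrimesOf (K : Sub) (𝔪 𝔣 : Ideals K) : Prop :=
  𝔣 ≠ ⊥ ∧ ∀ P : Ideals K, P.IsPrime → 𝔪 ≤ P → 𝔣 ≤ P

end Pool.Agent.K4H33.SD
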