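import Pool.Agent.K4H33.SD.Main

/-! The general theorem for generalized dihedral extensions of exponent four. -/

set_option autoImplicit false
set_option linter.style.haveILetI false

namespace Pool.Agent.K4H33.SD
open NumberField Module IntermediateField Pool.Agent.K4H33.SK
open Pool.Agent.K4H33.SK.Stmt (Sub Ideals nrm Cop)
open Pool.Agent.K4H33.SQ (StarkATR)

/-- The degree condition `[H : K] ≤ 2 ^ e`. -/
def DegreeBound (H : Sub) (n e : ℕ) : Prop := finrank ℚ H ≤ 2 * n * 2 ^ e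

/-- **Stark units for generalized dihedral extensions of exponent four.** -/
theorem dihedral_general (ι : Qbar →+* ℂ) (F K H : Sub) [NumberField K] (n : ℕ)
    (hF : Fields ι F K n) (hD : Dihedral F K H) (𝔪 : Ideals K) (art : Ideals K → GQ)
    (hart : Stmt.IsArtin K H 𝔪 art) (hI : Inputs ι K H (expo F K n 𝔪) 𝔪 art)
    (hdeg : DegreeBound H n (expo F K n 𝔪)) (W : ℕ) (hW : IsTorsionOrder H W)
    (𝔣 : Ideals K) (h𝔣 : PrimesOf K 𝔪 𝔣) : StarkATR ι K H 𝔣 art W := by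
  obtain ⟨c, hc⟩ := exists_conj ι
  have h1 := dihedral_main (⟨hF, hD, hc⟩ : Setup ι F K H n c) hart.fix hI hW hdeg
  have h2 := starkCubic_mul hart.down le_rfl hD.le hW.1 h1 𝔣 h𝔣.1
  refine starkCubic_modulus (fun 𝔟 => ?_) h2
  rw [IsCoprime.mul_right_iff]
  refine ⟨fun h => h.2, fun h => ⟨?_, h⟩⟩
  rw [Ideal.isCoprime_iff_sup_eq]
  by_contra hne
  obtain ⟨P, hP, hle⟩ := Ideal.exists_le_maximal _ hne
  apply hP.ne_top
  rw [Ideal.eq_top_iff_one]
  obtain ⟨i, hi, j, hj, hij⟩ := Ideal.isCoprime_iff_exists.1 h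
  rw [← hij]
  exact P.add_mem (hle ((le_sup_left : 𝔟 ≤ 𝔟 ⊔ _) hi))
    (h𝔣.2 P hP.isPrime ((le_sup_right : 𝔪 ≤ 𝔟 ⊔ 𝔪).trans hle) hj)

end Pool.Agent.K4H33.SD
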