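import Pool.Agent.K4H33.SD.Piece
import Pool.Agent.K4H33.SR.MainR

/-! Fourier inversion for partial zeta functions. -/

set_option autoImplicit false
set_option linter.style.haveILetI false

namespace Pool.Agent.K4H33.SD
open NumberField Module IntermediateField Pool.Agent.K4H33.SK
open Pool.Agent.K4H33.SK.Stmt (Sub Ideals nrm Cop)

section
variable {K H : Sub} {A : Type} [CommGroup A] (π : K.fixingSubgroup →* A)

open Classical in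
/-- The function on automorphisms given by a character of `A`. -/
noncomputable def chr (φ : A →* ℂˣ) : GQ → ℂ := fun σ =>
  if h : Fixes K σ then ((φ (π ⟨σ, fixes_iff.1 h⟩) : ℂˣ) : ℂ) else 0

lemma chr_apply (φ : A →* ℂˣ) {σ : GQ} (h : Fixes K σ) :
    chr π φ σ = ((φ (π ⟨σ, fixes_iff.1 h⟩) : ℂˣ) : ℂ) := by
  unfold chr
  rw [dif_pos h]

lemma chr_isChar (hπ : ∀ σ τ : K.fixingSubgroup, (∀ x ∈ H, (σ : GQ) x = (τ : GQ) x) → π σ = π τ)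
    (φ : A →* ℂˣ) : IsChar K H (chr π φ) := by
  constructor
  · intro σ τ hσ hτ
    rw [chr_apply π φ hσ, chr_apply π φ hτ, chr_apply π φ (hσ.mul hτ), ← Units.val_mul, ← map_mul,
      ← map_mul]
    rfl
  · intro σ hσ hσH
    rw [chr_apply π φ hσ]
    have h1 : π ⟨σ, fixes_iff.1 hσ⟩ = π 1 := hπ _ _ fun x hx => hσH x hx
    rw [h1, map_one, map_one, Units.val_one]

lemma chr_inv (φ : A →* ℂˣ) {σ : GQ} (h : Fixes K σ) : chr π φ⁻¹ σ = (chr π φ σ)⁻¹ := by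
  rw [chr_apply π _ h, chr_apply π _ h, MonoidHom.inv_apply, Units.val_inv_eq_inv_val]

lemma chr_pow (φ : A →* ℂˣ) (k : ℕ) {σ : GQ} (h : Fixes K σ) :
    chr π (φ ^ k) σ = (chr π φ σ) ^ k := by
  rw [chr_apply π _ h, chr_apply π _ h, MonoidHom.pow_apply, Units.val_pow_eq_pow_val]

lemma chr_one {σ : GQ} (h : Fixes K σ) : chr π 1 σ = 1 := by
  rw [chr_apply π _ h, MonoidHom.one_apply, Units.val_one]

/-- A nontrivial character takes a nontrivial value. -/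
lemma chr_ne_one (hs : Function.Surjective π) {φ : A →* ℂˣ} (hφ : φ ≠ 1) :
    ∃ σ, Fixes K σ ∧ chr π φ σ ≠ 1 := by
  by_contra hne
  push Not at hne
  apply hφ
  ext a
  obtain ⟨σ, rfl⟩ := hs a
  have h1 : Fixes K (σ : GQ) := fixes_iff.2 σ.2
  have h2 := hne σ h1
  rw [chr_apply π _ h1] at h2
  rw [MonoidHom.one_apply, Units.val_one]
  exact h2

variable [NumberField K] {𝔪 : Ideals K} {art : Ideals K → GQ}

/-- The ideals of norm `n` prime to `𝔪`. -/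
lemma ideals_finite (K : Sub) [NumberField K] (𝔪 : Ideals K) (n : ℕ) :
    {𝔟 : Ideals K | nrm K 𝔟 = n ∧ Cop K 𝔟 𝔪}.Finite :=
  (Ideal.finite_setOfPred_absNorm_eq (S := 𝓞 K) n).subset fun _ h => h.1

lemma coef_eq (χ : GQ → ℂ) (n : ℕ) : coef K 𝔪 art χ n =
    ∑ 𝔟 ∈ (ideals_finite K 𝔪 n).toFinset, χ (art 𝔟) := by
  unfold coef
  rw [finsum_mem_eq_finite_toFinset_sum _ (ideals_finite K 𝔪 n)]

/-- Complex conjugation on coefficients. -/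
lemma coef_conj {χ χ₁ : GQ → ℂ} (hart : ∀ 𝔟, Cop K 𝔟 𝔪 → Fixes K (art 𝔟))
    (h : ∀ σ, Fixes K σ → χ₁ σ = (starRingEnd ℂ) (χ σ)) (n : ℕ) :
    coef K 𝔪 art χ₁ n = (starRingEnd ℂ) (coef K 𝔪 art χ n) := by
  rw [coef_eq _ n, coef_eq _ n, map_sum]
  refine Finset.sum_congr rfl fun 𝔟 h𝔟 => ?_
  rw [Set.Finite.mem_toFinset] at h𝔟
  exact h _ (hart 𝔟 h𝔟.2)

variable [Finite A]

open Classical in
/-- **Fourier inversion.** -/
lemma fourier [Fintype (A →* ℂˣ)] (hart : ∀ 𝔟, Cop K 𝔟 𝔪 → Fixes K (art 𝔟))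
    (hπ : ∀ σ τ : K.fixingSubgroup, π σ = π τ ↔ ∀ x ∈ H, (σ : GQ) x = (τ : GQ) x) {g : GQ}
    (hg : Fixes K g) (n : ℕ) :
    ∑ φ : A →* ℂˣ, (chr π φ g)⁻¹ * coef K 𝔪 art (chr π φ) n =
      (Nat.card A : ℂ) * (Stmt.cnt K H 𝔪 art g n : ℂ) := by
  have h1 : ∀ φ : A →* ℂˣ, (chr π φ g)⁻¹ * coef K 𝔪 art (chr π φ) n =
      ∑ 𝔟 ∈ (ideals_finite K 𝔪 n).toFinset, (chr π φ g)⁻¹ * chr π φ (art 𝔟) := by
    intro φ
    rw [coef_eq _ n, Finset.mul_sum]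
  rw [Finset.sum_congr rfl fun φ _ => h1 φ, Finset.sum_comm]
  have h2 : ∀ 𝔟 ∈ (ideals_finite K 𝔪 n).toFinset,
      ∑ φ : A →* ℂˣ, (chr π φ g)⁻¹ * chr π φ (art 𝔟) =
        if (∀ x ∈ H, art 𝔟 x = g x) then (Nat.card A : ℂ) else 0 := by
    intro 𝔟 h𝔟
    rw [Set.Finite.mem_toFinset] at h𝔟
    have h3 := hart 𝔟 h𝔟.2
    have h4 := sum_char_inv (A := A) (π ⟨g, fixes_iff.1 hg⟩) (π ⟨art 𝔟, fixes_iff.1 h3⟩)
    have h5 : (π ⟨g, fixes_iff.1 hg⟩ = π ⟨art 𝔟, fixes_iff.1 h3⟩) ↔ ∀ x ∈ H, art 𝔟 x = g x := by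
      rw [hπ]
      exact forall₂_congr fun x _ => eq_comm
    rw [← if_congr h5 rfl rfl, ← h4]
    refine Finset.sum_congr rfl fun φ _ => ?_
    rw [chr_apply π φ hg, chr_apply π φ h3, Units.val_inv_eq_inv_val]
  rw [Finset.sum_congr rfl h2, ← Finset.sum_filter, Finset.sum_const, nsmul_eq_mul, mul_comm]
  congr 2
  unfold Stmt.cnt
  have h6 : {𝔟 : Ideals K | nrm K 𝔟 = n ∧ Cop K 𝔟 𝔪 ∧ ∀ x ∈ H, art 𝔟 x = g x} =
      ↑((ideals_finite K 𝔪 n).toFinset.filter fun 𝔟 => ∀ x ∈ H, art 𝔟 x = g x) := by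
    ext 𝔟
    simp only [Set.mem_ofPred_eq, Finset.coe_filter, Set.Finite.mem_toFinset]
    tauto
  have h7 : Nat.card {𝔟 : Ideals K // nrm K 𝔟 = n ∧ Cop K 𝔟 𝔪 ∧ ∀ x ∈ H, art 𝔟 x = g x} =
      {𝔟 : Ideals K | nrm K 𝔟 = n ∧ Cop K 𝔟 𝔪 ∧ ∀ x ∈ H, art 𝔟 x = g x}.ncard := rfl
  rw [h7, h6, Set.ncard_coe_finset]

end

end Pool.Agent.K4H33.SD
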