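import Pool.Agent.K4H33.SD.Defs

/-! The group `Gal(H/K)` and complex conjugation. -/

set_option autoImplicit false
set_option linter.style.haveILetI false

namespace Pool.Agent.K4H33.SD
open NumberField Module IntermediateField Pool.Agent.K4H33.SK
open Pool.Agent.K4H33.SK.Stmt (Sub Ideals nrm Cop)

/-- Relative quadratic extensions. -/
lemma quadRel' {F K : Sub} (hle : F ≤ K) {n : ℕ} (hn : n ≠ 0) (hF : finrank ℚ F = n)
    (hK : finrank ℚ K = 2 * n) {σ τ : GQ} (hσ : Fixes F σ) (hτ : Fixes F τ) (hσK : ¬ Fixes K σ)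
    (hτK : ¬ Fixes K τ) : Fixes K (σ * τ) := by
  haveI : FiniteDimensional ℚ F := FiniteDimensional.of_finrank_pos (by rw [hF]; omega)
  haveI : FiniteDimensional ℚ K := FiniteDimensional.of_finrank_pos (by rw [hK]; omega)
  let M : IntermediateField F Qbar := IntermediateField.extendScalars hle
  haveI i1 : FiniteDimensional ℚ ↥K := inferInstance
  haveI i4 : FiniteDimensional ℚ M := i1
  haveI i5 : IsScalarTower ℚ F M := inferInstance
  haveI i7 : FiniteDimensional F M := FiniteDimensional.right ℚ F M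
  have hd2 : finrank F M = 2 := by
    have h1 := finrank_mul_finrank ℚ F M
    have h2 : finrank ℚ M = 2 * n := hK
    rw [h2, hF, mul_comm 2 n] at h1
    exact Nat.eq_of_mul_eq_mul_left (Nat.pos_of_ne_zero hn) h1
  haveI : Algebra.IsQuadraticExtension F M := ⟨hd2⟩
  haveI i6 : Normal F M := Algebra.IsQuadraticExtension.normal F M
  haveI i8 : IsGalois F M := ⟨⟩
  have hc : Nat.card (M ≃ₐ[F] M) = 2 := by rw [IsGalois.card_aut_eq_finrank, hd2]
  haveI : Fact (Nat.Prime 2) := ⟨Nat.prime_two⟩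
  haveI i9 : Finite (M ≃ₐ[F] M) := Nat.finite_of_card_ne_zero (by rw [hc]; norm_num)
  let r : F.fixingSubgroup →* (M ≃ₐ[F] M) :=
    (AlgEquiv.restrictNormalHom M).comp (IntermediateField.fixingSubgroupEquiv F).toMonoidHom
  have hr : ∀ (g : F.fixingSubgroup) (x : M), ((r g x : M) : Qbar) = (g : GQ) x := by
    intro g x
    exact AlgEquiv.restrictNormal_commutes (IntermediateField.fixingSubgroupEquiv F g) M x
  have h1 : ∀ g : F.fixingSubgroup, r g = 1 ↔ Fixes K (g : GQ) := by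
    intro g
    constructor
    · intro h x hx
      have e1 := hr g ⟨x, hx⟩
      rw [h] at e1
      exact e1.symm
    · intro h
      ext x
      exact (hr g x).trans (h _ x.2)
  set s : F.fixingSubgroup := ⟨σ, fixes_iff.1 hσ⟩ with hs
  set t : F.fixingSubgroup := ⟨τ, fixes_iff.1 hτ⟩ with ht
  have hs1 : r s ≠ 1 := fun h => hσK ((h1 s).1 h)
  have ht1 : r t ≠ 1 := fun h => hτK ((h1 t).1 h)
  have h3 : (r s) ^ 2 = 1 := by rw [← hc]; exact pow_card_eq_one'
  have h5 := mem_zpowers_of_prime_card hc (g' := r t) hs1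
  have h6 : r t ∈ Submonoid.powers (r s) := mem_powers_iff_mem_zpowers.2 h5
  obtain ⟨n, hn⟩ := h6
  have hn : (r s) ^ n = r t := hn
  have h7 : r (s * t) = 1 := by
    rw [map_mul]
    rcases Nat.even_or_odd' n with ⟨m, rfl | rfl⟩
    · rw [pow_mul, h3, one_pow] at hn
      exact absurd hn.symm ht1
    · rw [pow_add, pow_mul, h3, one_pow, one_mul, pow_one] at hn
      rw [← hn, ← pow_two, h3]
  exact (h1 (s * t)).1 h7

/-- The data: fields and a complex conjugation. -/
structure Setup (ι : Qbar →+* ℂ) (F K H : Sub) (n : ℕ) (c : GQ) : Prop where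
  fields : Fields ι F K n
  dih : Dihedral F K H
  conj : ∀ x, ι (c x) = (starRingEnd ℂ) (ι x)

section
variable {ι : Qbar →+* ℂ} {F K H : Sub} {n : ℕ} {c : GQ} (S : Setup ι F K H n c)
include S

lemma cc : c * c = 1 := by
  ext x
  apply ι.injective
  rw [AlgEquiv.mul_apply, S.conj, S.conj, Complex.conj_conj, AlgEquiv.one_apply]

lemma c_inv : c⁻¹ = c := inv_eq_of_mul_eq_one_left (cc S)

lemma cc_apply (x : Qbar) : c (c x) = x := by
  rw [← AlgEquiv.mul_apply, cc S, AlgEquiv.one_apply]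

lemma c_F : Fixes F c := by
  intro x hx
  apply ι.injective
  rw [S.conj]
  exact Complex.conj_eq_iff_im.2 (S.fields.real_F ι x hx)

lemma c_K : ¬ Fixes K c := by
  intro h
  obtain ⟨x, hx, hx2⟩ := S.fields.complex
  apply hx2
  have h1 := S.conj x
  rw [h x hx] at h1
  exact Complex.conj_eq_iff_im.1 h1.symm

lemma K_F {σ : GQ} (h : Fixes K σ) : Fixes F σ := h.mono S.fields.le

lemma mul_K {σ τ : GQ} (hσ : Fixes F σ) (hτ : Fixes F τ) (hσK : ¬ Fixes K σ)
    (hτK : ¬ Fixes K τ) : Fixes K (σ * τ) := by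
  have hn := S.fields.two_le
  exact quadRel' S.fields.le (by omega) S.fields.deg_F S.fields.deg_K hσ hτ hσK hτK

lemma not_K_mul {σ τ : GQ} (hσK : ¬ Fixes K σ) (hτK : Fixes K τ) : ¬ Fixes K (σ * τ) := by
  intro h
  apply hσK
  have h1 := h.mul hτK.inv
  rwa [mul_inv_cancel_right] at h1

lemma conj_K {σ τ : GQ} (hσ : Fixes F σ) (hτ : Fixes K τ) : Fixes K (σ * τ * σ⁻¹) := by
  by_cases h : Fixes K σ
  · exact (h.mul hτ).mul h.inv
  · refine mul_K S (hσ.mul (K_F S hτ)) hσ.inv (not_K_mul S h hτ) ?_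
    intro h1
    apply h
    have h2 := h1.inv
    rwa [inv_inv] at h2

lemma c_conj_K {τ : GQ} (hτ : Fixes K τ) : Fixes K (c * τ * c) := by
  have h := conj_K S (c_F S) hτ
  rwa [c_inv S] at h

lemma H_mem {σ : GQ} (hσ : Fixes F σ) {x : Qbar} (hx : x ∈ H) : σ x ∈ H :=
  S.dih.normal σ hσ x hx

lemma K_mem {σ : GQ} (hσ : Fixes F σ) {x : Qbar} (hx : x ∈ K) : σ x ∈ K := by
  apply mem_of_fixed
  intro τ hτ
  have h1 := conj_K S hσ.inv hτ
  rw [inv_inv] at h1
  have h2 := h1 x hx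
  rw [AlgEquiv.mul_apply, AlgEquiv.mul_apply] at h2
  rw [AlgEquiv.aut_inv, AlgEquiv.symm_apply_eq] at h2
  exact h2

lemma c_mul {τ : GQ} (hτ : Fixes K τ) {x : Qbar} (hx : x ∈ H) : c (τ x) = τ⁻¹ (c x) :=
  S.dih.inversion c τ (c_F S) (c_K S) hτ x hx

lemma abelian {σ τ : GQ} (hσ : Fixes K σ) (hτ : Fixes K τ) {x : Qbar} (hx : x ∈ H) :
    σ (τ x) = τ (σ x) := by
  have h1 := c_mul S (hσ.inv.mul hτ.inv) (H_mem S (c_F S) hx)
  have h2 := c_mul S hσ.inv (H_mem S (K_F S hτ.inv) (H_mem S (c_F S) hx))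
  have h3 := c_mul S hτ.inv (H_mem S (c_F S) hx)
  rw [AlgEquiv.mul_apply, mul_inv_rev, inv_inv, inv_inv, cc_apply S] at h1
  rw [inv_inv] at h2 h3
  rw [cc_apply S] at h3
  rw [h3] at h2
  rw [h2] at h1
  exact h1

lemma fixes_inversion {σ τ : GQ} (hσ : Fixes F σ) (hσK : ¬ Fixes K σ) (hτ : Fixes K τ) {x : Qbar}
    (hx : x ∈ H) : σ (τ x) = τ⁻¹ (σ x) := S.dih.inversion σ τ hσ hσK hτ x hx

/-- The group `Gal(H/K)`. -/
lemma exists_group : ∃ (A : Type) (_ : CommGroup A) (_ : Finite A) (π : K.fixingSubgroup →* A),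
    Function.Surjective π ∧
    (∀ σ τ : K.fixingSubgroup, π σ = π τ ↔ ∀ x ∈ H, (σ : GQ) x = (τ : GQ) x) ∧
    (∀ a : A, a ^ 4 = 1) ∧ Nat.card A * finrank ℚ K ≤ finrank ℚ H := by
  classical
  haveI := S.dih.finite
  let N : Subgroup K.fixingSubgroup := H.fixingSubgroup.subgroupOf K.fixingSubgroup
  have hN : ∀ g : K.fixingSubgroup, g ∈ N ↔ Fixes H (g : GQ) := by
    intro g
    rw [Subgroup.mem_subgroupOf, fixes_iff]
  haveI : N.Normal := by
    constructor
    intro g hg σ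
    rw [hN] at hg ⊢
    intro x hx
    have hσ : Fixes F (σ : GQ) := K_F S (fixes_iff.2 σ.2)
    show (σ : GQ) ((g : GQ) ((σ : GQ)⁻¹ x)) = x
    rw [hg _ (H_mem S hσ.inv hx), AlgEquiv.aut_inv, AlgEquiv.apply_symm_apply]
  have heq : ∀ σ τ : K.fixingSubgroup, (QuotientGroup.mk' N) σ = (QuotientGroup.mk' N) τ ↔
      ∀ x ∈ H, (σ : GQ) x = (τ : GQ) x := by
    intro σ τ
    rw [QuotientGroup.mk'_apply, QuotientGroup.mk'_apply, eq_comm, QuotientGroup.eq, hN,
      agree_iff]
    rfl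
  letI : CommGroup (K.fixingSubgroup ⧸ N) :=
    { (inferInstance : Group (K.fixingSubgroup ⧸ N)) with
      mul_comm := by
        intro a b
        obtain ⟨σ, rfl⟩ := QuotientGroup.mk'_surjective N a
        obtain ⟨τ, rfl⟩ := QuotientGroup.mk'_surjective N b
        rw [← map_mul, ← map_mul, heq]
        intro x hx
        exact abelian S (fixes_iff.2 σ.2) (fixes_iff.2 τ.2) hx }
  -- the injection into the embeddings
  haveI : FiniteDimensional ℚ K := FiniteDimensional.of_finrank_pos (by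
    rw [S.fields.deg_K]; have := S.fields.two_le; omega)
  let M : IntermediateField K Qbar := IntermediateField.extendScalars S.dih.le
  haveI i4 : FiniteDimensional ℚ M := S.dih.finite
  haveI i7 : FiniteDimensional K M := FiniteDimensional.right ℚ K M
  let s : (K.fixingSubgroup ⧸ N) → K.fixingSubgroup := fun a =>
    (QuotientGroup.mk'_surjective N a).choose
  have hs : ∀ a, QuotientGroup.mk' N (s a) = a := fun a =>
    (QuotientGroup.mk'_surjective N a).choose_spec
  let j : (K.fixingSubgroup ⧸ N) → (M →ₐ[K] Qbar) := fun a =>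
    ((IntermediateField.fixingSubgroupEquiv K (s a) : Qbar ≃ₐ[K] Qbar) : Qbar →ₐ[K] Qbar).comp M.val
  have hj : Function.Injective j := by
    intro a b hab
    rw [← hs a, ← hs b, heq]
    intro x hx
    exact DFunLike.congr_fun hab ⟨x, hx⟩
  haveI : Finite (K.fixingSubgroup ⧸ N) := Finite.of_injective j hj
  refine ⟨K.fixingSubgroup ⧸ N, inferInstance, inferInstance, QuotientGroup.mk' N,
    QuotientGroup.mk'_surjective N, heq, ?_, ?_⟩
  · intro a
    obtain ⟨σ, rfl⟩ := QuotientGroup.mk'_surjective N a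
    rw [← map_pow, ← map_one (QuotientGroup.mk' N), heq]
    intro x hx
    exact S.dih.exp_four σ (fixes_iff.2 σ.2) x hx
  · have h1 : Nat.card (K.fixingSubgroup ⧸ N) ≤ Nat.card (M →ₐ[K] Qbar) :=
      Nat.card_le_card_of_injective j hj
    rw [Nat.card_eq_fintype_card (α := M →ₐ[K] Qbar), AlgHom.card] at h1
    have h2 := finrank_mul_finrank ℚ K M
    have h3 : finrank ℚ M = finrank ℚ H := rfl
    rw [← h3, ← h2, mul_comm (finrank ℚ K)]
    exact Nat.mul_le_mul_right _ h1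

end

end Pool.Agent.K4H33.SD
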