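import Pool.Agent.K4H33.SD.Fou

/-! Stark units for generalized dihedral extensions of exponent four. -/

set_option autoImplicit false
set_option linter.style.haveILetI false

namespace Pool.Agent.K4H33.SD
open NumberField Module IntermediateField Pool.Agent.K4H33.SK
open Pool.Agent.K4H33.SK.Stmt (Sub Ideals nrm Cop)

lemma IsLfun.deriv_unique {a a' : ℕ → ℂ} {L L' : ℂ → ℂ} (h : IsLfun a L) (h' : IsLfun a' L')
    (haa : ∀ n, a n = a' n) : deriv L 0 = deriv L' 0 :=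
  SR.hol_unique h.1 h'.1 h.2 h'.2 fun n _ => haa n

section
variable {ι : Qbar →+* ℂ} {F K H : Sub} {n : ℕ} {c : GQ} {χ : GQ → ℂ} [NumberField K]
  {𝔪 : Ideals K} {art : Ideals K → GQ} {e : ℕ}

omit [NumberField K] in
lemma IsChar.norm (S : Setup ι F K H n c) (h : IsChar K H χ) {g : GQ} (hg : Fixes K g) :
    ‖χ g‖ = 1 :=
  Complex.norm_eq_one_of_pow_eq_one (h.pow_four S hg) (by norm_num)

omit [NumberField K] in
lemma IsChar.inv_conj (S : Setup ι F K H n c) (h : IsChar K H χ) {g : GQ} (hg : Fixes K g) :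
    (χ g)⁻¹ = (starRingEnd ℂ) (χ g) :=
  Complex.inv_eq_conj (h.norm S hg)

/-- The contribution of a quadratic character. -/
lemma quad_term (S : Setup ι F K H n c) (hI : Inputs ι K H e 𝔪 art) (h : IsChar K H χ)
    (h2 : ∀ σ, Fixes K σ → (χ σ) ^ 2 = 1) (h3 : ∃ σ, Fixes K σ ∧ χ σ ≠ 1) {W : ℕ}
    (hW : IsTorsionOrder H W) {L : ℂ → ℂ} (hL : IsLfun (coef K 𝔪 art χ) L) {N m : ℕ}
    (hN : N ≠ 0) (hm : 2 ^ e = N * m) :
    ∃ lam : Qbar, Piece K H W lam ∧ ∀ g : GQ, Fixes K g →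
      (Real.log (‖ι (g (lam ^ W))‖ ^ 2) : ℂ) = -(W : ℂ) * ((1 / (N : ℂ)) *
        ((χ g)⁻¹ * deriv L 0)) := by
  obtain ⟨w, hw⟩ := exists_rootsOf S h hW
  obtain ⟨L₁, θ, h4, _, h6, h7⟩ := hI.quadratic χ w h h2 h3 hw
  obtain ⟨lam, h8, h9⟩ := quad_piece S h h2 hw hW h6 m
  refine ⟨lam, h8, fun g hg => ?_⟩
  have h10 := h9 g hg
  have h11 : ((χ g).re : ℂ) = (χ g)⁻¹ := by
    rcases sq_one (h2 g hg) with h | h
    · rw [h]; simp
    · rw [h]; norm_num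
  have h12 : (w : ℂ) * (Real.log (‖ι (g (lam ^ W))‖ ^ 2) : ℂ) =
      W * m * (((χ g).re : ℂ) * (Real.log (‖ι θ‖ ^ 2) : ℂ)) := by
    exact_mod_cast h10
  rw [h11] at h12
  rw [hL.deriv_unique h4 fun _ => rfl]
  have hw0 : (w : ℂ) ≠ 0 := Nat.cast_ne_zero.2 hw.1.ne'
  have hN0 : (N : ℂ) ≠ 0 := Nat.cast_ne_zero.2 hN
  have hm' : (2 : ℂ) ^ e = N * m := by exact_mod_cast hm
  rw [hm'] at h7
  apply mul_left_cancel₀ hw0
  rw [h12]
  have h13 : (w : ℂ) * (-(W : ℂ) * (1 / (N : ℂ) * ((χ g)⁻¹ * deriv L₁ 0))) =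
      -(W : ℂ) * (1 / (N : ℂ) * ((χ g)⁻¹ * (w * deriv L₁ 0))) := by ring
  rw [h13, h7]
  field_simp

/-- The contribution of a character of order four and its inverse. -/
lemma quart_term (S : Setup ι F K H n c) (hI : Inputs ι K H e 𝔪 art)
    (hart : ∀ 𝔟, Cop K 𝔟 𝔪 → Fixes K (art 𝔟)) (h : IsChar K H χ)
    (h3 : ∃ σ, Fixes K σ ∧ (χ σ) ^ 2 ≠ 1) {χ₁ : GQ → ℂ}
    (h1 : ∀ σ, Fixes K σ → χ₁ σ = (χ σ)⁻¹) {W : ℕ} {L L' : ℂ → ℂ}
    (hL : IsLfun (coef K 𝔪 art χ) L) (hL' : IsLfun (coef K 𝔪 art χ₁) L') {N m : ℕ}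
    (hN : N ≠ 0) (hm : 2 ^ e = N * m) :
    ∃ lam : Qbar, Piece K H W lam ∧ ∀ g : GQ, Fixes K g →
      (Real.log (‖ι (g (lam ^ W))‖ ^ 2) : ℂ) = -(W : ℂ) * ((1 / (N : ℂ)) *
        ((χ g)⁻¹ * deriv L 0 + (χ₁ g)⁻¹ * deriv L' 0)) := by
  obtain ⟨K', E', χ', hK', hC⟩ := exists_companion S h
  obtain ⟨𝔪', art', ⟨hart', hco⟩, L₁, θ, h4, _, h6, h7⟩ :=
    hI.quartic χ c K' E' χ' h h3 hC
  obtain ⟨lam, h8, h9⟩ := quart_piece S h hC (W := W) h6 m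
  refine ⟨lam, h8, fun g hg => ?_⟩
  have h10 := h9 g hg
  -- the derivatives agree
  have hreal : ∀ σ : GQ, Fixes K' σ → χ' σ = (starRingEnd ℂ) (χ' σ) := by
    intro σ hσ
    obtain ⟨τ, e1, e2, e3⟩ := (hC.field σ).1 hσ
    have e4 := hC.char τ e1 e2
    have e5 : χ' σ = χ τ := by
      rcases e3 with rfl | rfl
      · exact e4.1
      · exact e4.2
    rw [e5]
    rcases sq_one e2 with e6 | e6
    · rw [e6, map_one]
    · rw [e6, map_neg, map_one]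
  have hcc : ∀ k, coef K 𝔪 art χ₁ k = coef K' 𝔪' art' χ' k := by
    intro k
    rw [coef_conj (χ := χ) hart (fun σ hσ => by rw [h1 σ hσ, h.inv_conj S hσ]) k, hco k,
      ← coef_conj (χ := χ') (fun 𝔟 h𝔟 => hart'.fix 𝔟 h𝔟) hreal k]
  have hD : deriv L 0 = deriv L₁ 0 := hL.deriv_unique h4 hco
  have hD' : deriv L' 0 = deriv L₁ 0 := hL'.deriv_unique h4 hcc
  have h11 : (χ g)⁻¹ + (χ₁ g)⁻¹ = 2 * ((χ g).re : ℂ) := by
    rw [h1 g hg, inv_inv, h.inv_conj S hg, add_comm, Complex.add_conj]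
    push_cast
    ring
  have h12 : (Real.log (‖ι (g (lam ^ W))‖ ^ 2) : ℂ) =
      W * m * (((χ g).re : ℂ) * (Real.log (‖ι θ‖ ^ 2) : ℂ)) := by
    exact_mod_cast h10
  have h13 : (Real.log (‖ι θ‖ ^ 2) : ℂ) = 2 * (Real.log (‖ι θ‖ ^ 1) : ℂ) := by
    rw [Real.log_pow, Real.log_pow]
    push_cast
    ring
  have hN0 : (N : ℂ) ≠ 0 := Nat.cast_ne_zero.2 hN
  have hm' : (2 : ℂ) ^ e = N * m := by exact_mod_cast hm
  rw [pow_succ, hm'] at h7
  have h14 : deriv L₁ 0 = -((N : ℂ) * m * (Real.log (‖ι θ‖ ^ 1) : ℂ)) := by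
    have h15 : (2 : ℂ) ≠ 0 := two_ne_zero
    apply mul_left_cancel₀ h15
    have h16 : ((2 : ℕ) : ℂ) = 2 := by norm_num
    rw [h16] at h7
    rw [h7]
    ring
  rw [h12, hD, hD', ← add_mul, h11, h13, h14]
  field_simp

/-- **Stark units for generalized dihedral extensions of exponent four**, for the modulus `𝔪`. -/
theorem dihedral_main (S : Setup ι F K H n c) (hart : ∀ 𝔟, Cop K 𝔟 𝔪 → Fixes K (art 𝔟))
    (hI : Inputs ι K H e 𝔪 art) {W : ℕ} (hW : IsTorsionOrder H W)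
    (hdeg : finrank ℚ H ≤ 2 * n * 2 ^ e) : StarkCubic ι K H 𝔪 art W := by
  classical
  have hn2 := S.fields.two_le
  obtain ⟨A, _, _, π, hs, hπ, h4, hcard⟩ := exists_group S
  haveI : Fintype (A →* ℂˣ) := Fintype.ofFinite _
  -- the order of the group
  have hN : Nat.card A ≠ 0 := Nat.card_pos.ne'
  obtain ⟨m, hm⟩ : ∃ m, 2 ^ e = Nat.card A * m := by
    have hp : IsPGroup 2 A := fun a => ⟨2, by rw [show 2 ^ 2 = 4 by norm_num]; exact h4 a⟩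
    obtain ⟨a, ha⟩ := IsPGroup.iff_card.1 hp
    rw [ha, S.fields.deg_K] at hcard
    have e1 : 2 ^ a * (2 * n) ≤ 2 ^ e * (2 * n) := by
      rw [mul_comm (2 ^ e)]
      exact hcard.trans hdeg
    have e2 : 2 ^ a ≤ 2 ^ e := Nat.le_of_mul_le_mul_right e1 (by omega)
    have e4 : a ≤ e := (Nat.pow_le_pow_iff_right (by norm_num)).1 e2
    rw [ha]
    exact (Nat.pow_dvd_pow 2 e4)
  have hchar : ∀ φ : A →* ℂˣ, IsChar K H (chr π φ) := fun φ =>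
    chr_isChar π (fun σ τ h => (hπ σ τ).2 h) φ
  -- the `L`-functions
  have hex : ∀ φ : A →* ℂˣ, ∃ L : ℂ → ℂ, IsLfun (coef K 𝔪 art (chr π φ)) L ∧ L 0 = 0 := by
    intro φ
    by_cases h1 : φ = 1
    · subst h1
      obtain ⟨L, h2, h3, _⟩ := hI.trivial (chr π 1) fun σ hσ => chr_one π hσ
      exact ⟨L, h2, h3⟩
    · by_cases h2 : φ ^ 2 = 1
      · obtain ⟨w, hw⟩ := exists_rootsOf S (hchar φ) hW
        obtain ⟨L, θ, h3, h4, _⟩ := hI.quadratic (chr π φ) w (hchar φ) (fun σ hσ => by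
          rw [← chr_pow π φ 2 hσ, h2, chr_one π hσ]) (chr_ne_one π hs h1) hw
        exact ⟨L, h3, h4⟩
      · obtain ⟨K', E', χ', hK', hC⟩ := exists_companion S (hchar φ)
        obtain ⟨σ, hσ, hσ2⟩ := chr_ne_one π hs h2
        rw [chr_pow π φ 2 hσ] at hσ2
        obtain ⟨𝔪', art', ⟨_, hco⟩, L, θ, h3, h4, _⟩ :=
          hI.quartic (chr π φ) c K' E' χ' (hchar φ) ⟨σ, hσ, hσ2⟩ hC
        refine ⟨L, ⟨h3.1, fun s hs => ?_⟩, h4⟩
        have e1 : coef K 𝔪 art (chr π φ) = coef K' 𝔪' art' χ' := funext hco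
        rw [e1]
        exact h3.2 s hs
  choose L hL hL0 using hex
  obtain ⟨P, hP1, hP2⟩ := exists_half (X := A →* ℂˣ)
  -- the factors
  have hq : ∀ φ : A →* ℂˣ, φ ^ 2 = 1 → ∃ lam : Qbar, Piece K H W lam ∧ ∀ g : GQ, Fixes K g →
      (Real.log (‖ι (g (lam ^ W))‖ ^ 2) : ℂ) = -(W : ℂ) * ((1 / (Nat.card A : ℂ)) *
        ((chr π φ g)⁻¹ * deriv (L φ) 0)) := by
    intro φ h2
    by_cases h1 : φ = 1
    · subst h1
      obtain ⟨L₁, h3, _, h5⟩ := hI.trivial (chr π 1) fun σ hσ => chr_one π hσ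
      refine ⟨1, Piece.one K H W, fun g hg => ?_⟩
      rw [(hL 1).deriv_unique h3 fun _ => rfl, h5]
      simp
    · exact quad_term S hI (hchar φ) (fun σ hσ => by
          rw [← chr_pow π φ 2 hσ, h2, chr_one π hσ]) (chr_ne_one π hs h1) hW (hL φ) hN hm
  have hr : ∀ φ : A →* ℂˣ, φ ^ 2 ≠ 1 → ∃ lam : Qbar, Piece K H W lam ∧ ∀ g : GQ, Fixes K g →
      (Real.log (‖ι (g (lam ^ W))‖ ^ 2) : ℂ) = -(W : ℂ) * ((1 / (Nat.card A : ℂ)) *
        ((chr π φ g)⁻¹ * deriv (L φ) 0 + (chr π φ⁻¹ g)⁻¹ * deriv (L φ⁻¹) 0)) := by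
    intro φ h2
    obtain ⟨σ, hσ, hσ2⟩ := chr_ne_one π hs h2
    rw [chr_pow π φ 2 hσ] at hσ2
    exact quart_term S hI hart (hchar φ) ⟨σ, hσ, hσ2⟩ (fun τ hτ => chr_inv π φ hτ) (hL φ)
      (hL φ⁻¹) hN hm
  choose! f hf1 hf2 using hq
  choose! r hr1 hr2 using hr
  set Q : Finset (A →* ℂˣ) := Finset.univ.filter fun φ => φ ^ 2 = 1 with hQ
  set lam : Qbar := (∏ φ ∈ Q, f φ) * ∏ φ ∈ P, r φ with hlam
  have hpiece : Piece K H W lam := by
    refine (Piece.prod Q fun φ hφ => hf1 φ ?_).mul (Piece.prod P fun φ hφ => hr1 φ (hP1 φ hφ))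
    exact (Finset.mem_filter.1 hφ).2
  let Z : GQ → ℂ → ℂ := fun g s =>
    ∑ φ : A →* ℂˣ, (1 / (Nat.card A : ℂ) * (chr π φ g)⁻¹) * L φ s
  have hN0 : (Nat.card A : ℂ) ≠ 0 := Nat.cast_ne_zero.2 hN
  have hn : ({1}ᶜ : Set ℂ) ∈ nhds (0 : ℂ) := isOpen_compl_singleton.mem_nhds (by simp)
  refine ⟨Z, lam ^ W, hpiece.mem, pow_ne_zero W hpiece.ne, ?_, hpiece.int, hpiece.inv,
    hpiece.norm, ?_⟩
  · intro g hg
    refine ⟨⟨?_, ?_⟩, ?_, ?_⟩
    · exact DifferentiableOn.fun_sum fun φ _ => (hL φ).1.const_mul _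
    · intro s hs
      have e1 := LSeriesHasSum.sum (S := (Finset.univ : Finset (A →* ℂˣ)))
        (f := fun φ => (1 / (Nat.card A : ℂ) * (chr π φ g)⁻¹) • coef K 𝔪 art (chr π φ))
        (fun φ _ => LSeriesHasSum.smul _ ((hL φ).2 s hs))
      refine (LSeriesHasSum_congr s _ (fun {k} _ => ?_)).1 e1
      rw [Finset.sum_apply]
      have e2 := fourier (H := H) π hart hπ hg k
      have e3 : ∀ φ : A →* ℂˣ,
          ((1 / (Nat.card A : ℂ) * (chr π φ g)⁻¹) • coef K 𝔪 art (chr π φ)) k =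
          1 / (Nat.card A : ℂ) * ((chr π φ g)⁻¹ * coef K 𝔪 art (chr π φ) k) := by
        intro φ
        rw [Pi.smul_apply, smul_eq_mul, mul_assoc]
      rw [Finset.sum_congr rfl fun φ _ => e3 φ, ← Finset.mul_sum, e2, ← mul_assoc,
        one_div_mul_cancel hN0, one_mul]
      rfl
    · refine Finset.sum_eq_zero fun φ _ => ?_
      rw [hL0 φ, mul_zero]
    · -- the limit formula
      have e1 : deriv (Z g) 0 = ∑ φ : A →* ℂˣ,
          1 / (Nat.card A : ℂ) * ((chr π φ g)⁻¹ * deriv (L φ) 0) := by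
        show deriv (fun s => ∑ φ : A →* ℂˣ, (1 / (Nat.card A : ℂ) * (chr π φ g)⁻¹) * L φ s) 0 = _
        rw [deriv_fun_sum]
        · refine Finset.sum_congr rfl fun φ _ => ?_
          rw [deriv_const_mul _ ((hL φ).1.differentiableAt hn), mul_assoc]
        · exact fun φ _ => ((hL φ).1.differentiableAt hn).const_mul _
      have e2 : ∑ φ : A →* ℂˣ, 1 / (Nat.card A : ℂ) * ((chr π φ g)⁻¹ * deriv (L φ) 0) =
          ∑ φ ∈ Q, 1 / (Nat.card A : ℂ) * ((chr π φ g)⁻¹ * deriv (L φ) 0) +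
          ∑ φ ∈ P, 1 / (Nat.card A : ℂ) * ((chr π φ g)⁻¹ * deriv (L φ) 0 +
            (chr π φ⁻¹ g)⁻¹ * deriv (L φ⁻¹) 0) := by
        rw [← Finset.sum_filter_add_sum_filter_not Finset.univ (fun φ : A →* ℂˣ => φ ^ 2 = 1)]
        congr 1
        rw [hP2 fun φ => 1 / (Nat.card A : ℂ) * ((chr π φ g)⁻¹ * deriv (L φ) 0)]
        exact Finset.sum_congr rfl fun φ _ => (mul_add _ _ _).symm
      have hg0 : ∀ x : Qbar, x ≠ 0 → ‖ι (g (x ^ W))‖ ^ 2 ≠ 0 := by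
        intro x hx
        apply pow_ne_zero
        rw [norm_ne_zero_iff, Ne, map_eq_zero]
        simpa using fun h => absurd h hx
      have hf0 : ∀ φ ∈ Q, f φ ≠ 0 := fun φ hφ => (hf1 φ (Finset.mem_filter.1 hφ).2).ne
      have hr0 : ∀ φ ∈ P, r φ ≠ 0 := fun φ hφ => (hr1 φ (hP1 φ hφ)).ne
      have e3 : Real.log (‖ι (g (lam ^ W))‖ ^ 2) =
          ∑ φ ∈ Q, Real.log (‖ι (g ((f φ) ^ W))‖ ^ 2) +
          ∑ φ ∈ P, Real.log (‖ι (g ((r φ) ^ W))‖ ^ 2) := by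
        have e4 : ‖ι (g (lam ^ W))‖ ^ 2 = (∏ φ ∈ Q, ‖ι (g ((f φ) ^ W))‖ ^ 2) *
            ∏ φ ∈ P, ‖ι (g ((r φ) ^ W))‖ ^ 2 := by
          rw [hlam, mul_pow, ← Finset.prod_pow, ← Finset.prod_pow, map_mul, map_mul, map_prod,
            map_prod, map_prod, map_prod, norm_mul, mul_pow, norm_prod, norm_prod,
            ← Finset.prod_pow, ← Finset.prod_pow]
        rw [e4, Real.log_mul, Real.log_prod, Real.log_prod]
        · exact fun φ hφ => hg0 _ (hr0 φ hφ)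
        · exact fun φ hφ => hg0 _ (hf0 φ hφ)
        · exact Finset.prod_ne_zero_iff.2 fun φ hφ => hg0 _ (hf0 φ hφ)
        · exact Finset.prod_ne_zero_iff.2 fun φ hφ => hg0 _ (hr0 φ hφ)
      rw [e3, e1, e2]
      push_cast
      rw [mul_add, Finset.mul_sum, Finset.mul_sum]
      congr 1
      · refine Finset.sum_congr rfl fun φ hφ => ?_
        have e5 := hf2 φ (Finset.mem_filter.1 hφ).2 g hg
        exact e5
      · refine Finset.sum_congr rfl fun φ hφ => ?_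
        have e5 := hr2 φ (hP1 φ hφ) g hg
        exact e5
  · intro mu hmu σ τ hσ hτ
    have h1 : (mu / lam) ^ W = 1 := by
      rw [div_pow, hmu, div_self (pow_ne_zero W hpiece.ne)]
    have h2 : mu / lam ∈ H := ((hW.2 _).2 h1).1
    have h3 : mu = mu / lam * lam := (div_mul_cancel₀ _ hpiece.ne).symm
    have h4 := hpiece.comm σ τ hσ hτ
    clear_value lam
    rw [h3, map_mul, map_mul, map_mul, map_mul, h4, abelian S hσ hτ h2]

end

end Pool.Agent.K4H33.SD
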