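import Pool.Agent.K4H33.SD.Comp

/-! The factors of the Stark unit. -/

set_option autoImplicit false
set_option linter.style.haveILetI false

namespace Pool.Agent.K4H33.SD
open NumberField Module IntermediateField Pool.Agent.K4H33.SK
open Pool.Agent.K4H33.SK.Stmt (Sub Ideals nrm Cop)

lemma sq_one {R : Type*} [Field R] {a : R} (h : a ^ 2 = 1) : a = 1 ∨ a = -1 := by
  rwa [pow_two, mul_self_eq_one_iff] at h

/-- A root of a factor of the Stark unit. -/
structure Piece (K H : Sub) (W : ℕ) (lam : Qbar) : Prop where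
  ne : lam ≠ 0
  mem : lam ^ W ∈ H
  int : IsIntegral ℤ (lam ^ W)
  inv : IsIntegral ℤ (lam ^ W)⁻¹
  norm : ∀ w : Qbar →+* ℂ, (∀ x ∈ K, (w x).im = 0) → ‖w (lam ^ W)‖ = 1
  comm : ∀ σ τ : GQ, Fixes K σ → Fixes K τ → σ (τ lam) = τ (σ lam)

lemma Piece.one (K H : Sub) (W : ℕ) : Piece K H W 1 := by
  refine ⟨one_ne_zero, ?_, ?_, ?_, ?_, ?_⟩
  · rw [one_pow]
    exact one_mem H
  · rw [one_pow]
    exact isIntegral_one
  · rw [one_pow, inv_one]
    exact isIntegral_one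
  · intro w _
    rw [one_pow, map_one, norm_one]
  · intro σ τ _ _
    rw [map_one, map_one, map_one]

lemma Piece.mul {K H : Sub} {W : ℕ} {a b : Qbar} (ha : Piece K H W a) (hb : Piece K H W b) :
    Piece K H W (a * b) := by
  refine ⟨mul_ne_zero ha.ne hb.ne, ?_, ?_, ?_, ?_, ?_⟩
  · rw [mul_pow]
    exact mul_mem ha.mem hb.mem
  · rw [mul_pow]
    exact ha.int.mul hb.int
  · rw [mul_pow, mul_inv]
    exact ha.inv.mul hb.inv
  · intro w hw
    rw [mul_pow, map_mul, norm_mul, ha.norm w hw, hb.norm w hw, one_mul]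
  · intro σ τ hσ hτ
    rw [map_mul, map_mul, map_mul, map_mul, ha.comm σ τ hσ hτ, hb.comm σ τ hσ hτ]

lemma Piece.prod {K H : Sub} {W : ℕ} {X : Type*} (P : Finset X) {f : X → Qbar}
    (h : ∀ x ∈ P, Piece K H W (f x)) : Piece K H W (∏ x ∈ P, f x) := by
  classical
  induction P using Finset.induction_on with
  | empty => rw [Finset.prod_empty]; exact Piece.one K H W
  | insert x P hx ih =>
    rw [Finset.prod_insert hx]
    exact (h x (Finset.mem_insert_self x P)).mul (ih fun y hy => h y (Finset.mem_insert_of_mem hy))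

section
variable {ι : Qbar →+* ℂ} {F K H : Sub} {n : ℕ} {c : GQ} {χ : GQ → ℂ}

/-- The root of unity group of the field cut out by `χ`. -/
lemma mem_H_of_fixed (S : Setup ι F K H n c) (h : IsChar K H χ) {ξ : Qbar}
    (hξ : ∀ σ, Fixes K σ → χ σ = 1 → σ ξ = ξ) : ξ ∈ H := by
  apply mem_of_fixed
  intro σ hσ
  have hσK : Fixes K σ := hσ.mono S.dih.le
  exact hξ σ hσK (h.one σ hσK hσ)

lemma exists_rootsOf (S : Setup ι F K H n c) (h : IsChar K H χ) {W : ℕ}
    (hW : IsTorsionOrder H W) : ∃ w, RootsOf K χ w := by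
  classical
  let R : Subgroup Qbarˣ :=
    { carrier := {u | u ^ W = 1 ∧ ∀ σ : GQ, Fixes K σ → χ σ = 1 → σ (u : Qbar) = u}
      one_mem' := ⟨one_pow W, fun σ _ _ => by rw [Units.val_one, map_one]⟩
      mul_mem' := by
        rintro a b ⟨h1, h2⟩ ⟨h3, h4⟩
        refine ⟨by rw [mul_pow, h1, h3, one_mul], fun σ h5 h6 => ?_⟩
        rw [Units.val_mul, map_mul, h2 σ h5 h6, h4 σ h5 h6]
      inv_mem' := by
        rintro a ⟨h1, h2⟩
        refine ⟨by rw [inv_pow, h1, inv_one], fun σ h5 h6 => ?_⟩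
        rw [Units.val_inv_eq_inv_val, map_inv₀, h2 σ h5 h6] }
  have hR : ∀ u, u ∈ R ↔ u ^ W = 1 ∧ ∀ σ : GQ, Fixes K σ → χ σ = 1 → σ (u : Qbar) = u :=
    fun u => Iff.rfl
  haveI : NeZero W := ⟨hW.1.ne'⟩
  have hle : R ≤ rootsOfUnity W Qbar := by
    intro u hu
    rw [mem_rootsOfUnity]
    exact ((hR u).1 hu).1
  haveI : Finite R := Finite.of_injective (Subgroup.inclusion hle) (Subgroup.inclusion_injective hle)
  have hw0 : 0 < Nat.card R := Nat.card_pos
  haveI : NeZero (Nat.card R) := ⟨hw0.ne'⟩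
  have hle2 : R ≤ rootsOfUnity (Nat.card R) Qbar := by
    intro u hu
    rw [mem_rootsOfUnity]
    have h1 : (⟨u, hu⟩ : R) ^ Nat.card R = 1 := pow_card_eq_one'
    exact congrArg Subtype.val h1
  have heq : R = rootsOfUnity (Nat.card R) Qbar := by
    apply Subgroup.eq_of_le_of_card_ge hle2
    exact card_rootsOfUnity Qbar (Nat.card R)
  refine ⟨Nat.card R, hw0, fun ξ => ?_⟩
  constructor
  · rintro ⟨⟨m, hm, hξ⟩, hfix⟩
    have hξ0 : ξ ≠ 0 := by
      rintro rfl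
      rw [zero_pow hm.ne'] at hξ
      exact zero_ne_one hξ
    have h1 : ξ ^ W = 1 := (hW.2 ξ).1 ⟨mem_H_of_fixed S h hfix, m, hm, hξ⟩
    have h2 : Units.mk0 ξ hξ0 ∈ R := by
      rw [hR]
      exact ⟨Units.ext (by rw [Units.val_pow_eq_pow_val]; exact h1), hfix⟩
    have h3 := hle2 h2
    rw [mem_rootsOfUnity] at h3
    have h4 := congrArg Units.val h3
    rw [Units.val_pow_eq_pow_val] at h4
    exact h4
  · intro hξ
    have hξ0 : ξ ≠ 0 := by
      rintro rfl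
      rw [zero_pow hw0.ne'] at hξ
      exact zero_ne_one hξ
    have h2 : Units.mk0 ξ hξ0 ∈ R := by
      rw [heq, mem_rootsOfUnity]
      exact Units.ext (by rw [Units.val_pow_eq_pow_val]; exact hξ)
    exact ⟨⟨Nat.card R, hw0, hξ⟩, fun σ h5 h6 => ((hR _).1 h2).2 σ h5 h6⟩

lemma rootsOf_dvd (S : Setup ι F K H n c) (h : IsChar K H χ) {W w : ℕ}
    (hW : IsTorsionOrder H W) (hw : RootsOf K χ w) : w ∣ W := by
  haveI : NeZero (w : Qbar) := ⟨Nat.cast_ne_zero.2 hw.1.ne'⟩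
  obtain ⟨ζ, hζ⟩ := HasEnoughRootsOfUnity.exists_primitiveRoot Qbar w
  have h1 := (hw.2 ζ).2 hζ.pow_eq_one
  exact hζ.dvd_of_pow_eq_one W ((hW.2 ζ).1 ⟨mem_H_of_fixed S h h1.2, h1.1⟩)

/-- There is a complex conjugation fixing `K`. -/
lemma exists_real_conj (S : Setup ι F K H n c) : ∃ (w₁ : Qbar →+* ℂ) (c₁ : GQ),
    (∀ x, w₁ (c₁ x) = (starRingEnd ℂ) (w₁ x)) ∧ Fixes K c₁ := by
  have h1 : ∃ g : GQ, ¬ Fixes F g := by
    by_contra hne
    push Not at hne
    have h2 : F = ⊥ := by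
      rw [eq_bot_iff]
      intro x hx
      apply mem_of_fixed
      intro σ _
      exact hne σ x hx
    have h3 := S.fields.deg_F
    rw [h2, IntermediateField.finrank_bot] at h3
    have := S.fields.two_le
    omega
  obtain ⟨g, hg⟩ := h1
  have h2 : ∃ x ∈ F, (ι.comp (g : Qbar →+* Qbar)) x ≠ ι x := by
    unfold Fixes at hg
    push Not at hg
    obtain ⟨x, hx, hx2⟩ := hg
    exact ⟨x, hx, fun h => hx2 (ι.injective h)⟩
  have h3 := S.fields.real_K _ h2
  obtain ⟨c₁, hc₁⟩ := exists_conj (ι.comp (g : Qbar →+* Qbar))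
  refine ⟨_, c₁, hc₁, ?_⟩
  intro x hx
  apply (ι.comp (g : Qbar →+* Qbar)).injective
  rw [hc₁]
  exact Complex.conj_eq_iff_im.2 (h3 x hx)

/-- Elements with `χ τ = -1` act on the roots of unity by inversion. -/
lemma root_inv (S : Setup ι F K H n c) (h : IsChar K H χ)
    (h2 : ∀ σ, Fixes K σ → (χ σ) ^ 2 = 1) {w : ℕ} (hw : RootsOf K χ w) {τ : GQ}
    (hτ : Fixes K τ) (hχ : χ τ = -1) {v : Qbar} (hv : v ^ w = 1) : τ v = v⁻¹ := by
  obtain ⟨w₁, c₁, hc, hcK⟩ := exists_real_conj S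
  have h3 := conj_root hc hw.1.ne' hv
  have h4 := ((hw.2 v).2 hv).2
  rcases sq_one (h2 c₁ hcK) with h5 | h5
  · have h6 := h4 c₁ hcK h5
    rw [h6] at h3
    have hv0 : v ≠ 0 := by
      rintro rfl
      rw [zero_pow hw.1.ne'] at hv
      exact zero_ne_one hv
    have h7 : v ^ 2 = 1 := by
      rw [pow_two]
      nth_rewrite 2 [h3]
      exact mul_inv_cancel₀ hv0
    rcases sq_one h7 with h8 | h8
    · rw [h8, map_one, inv_one]
    · rw [h8, map_neg, map_one, inv_neg, inv_one]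
  · have h6 : χ (c₁⁻¹ * τ) = 1 := by
      rw [h.mul _ _ hcK.inv hτ, h.inv hcK, h5, hχ]
      norm_num
    have h7 := h4 _ (hcK.inv.mul hτ) h6
    rw [AlgEquiv.mul_apply, AlgEquiv.aut_inv, AlgEquiv.symm_apply_eq] at h7
    rw [h7, h3]

/-- `K` is real at the embeddings which differ on `F`, and only at these. -/
lemma other_of_real (S : Setup ι F K H n c) {w : Qbar →+* ℂ} (hw : ∀ x ∈ K, (w x).im = 0) :
    ∃ x ∈ F, w x ≠ ι x := by
  by_contra hne
  push Not at hne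
  obtain ⟨g, hg⟩ := exists_lift ι w
  have hgF : Fixes F g := by
    intro x hx
    apply ι.injective
    rw [← hg, hne x hx]
  obtain ⟨x, hx, hx2⟩ := S.fields.complex
  apply hx2
  have h1 := hw _ (K_mem S hgF.inv hx)
  rw [hg, AlgEquiv.aut_inv, AlgEquiv.apply_symm_apply] at h1
  exact h1

/-- A logarithm, for an element on which `g` acts through `±1` or which becomes of absolute
value one. -/
lemma log_char {θ : Qbar} {g : GQ} {x : ℂ}
    (h : (x = 1 ∧ g θ = θ) ∨ (x = -1 ∧ g θ = θ⁻¹) ∨ (x.re = 0 ∧ ‖ι (g θ)‖ = 1)) :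
    Real.log (‖ι (g θ)‖ ^ 2) = x.re * Real.log (‖ι θ‖ ^ 2) := by
  rcases h with ⟨h1, h2⟩ | ⟨h1, h2⟩ | ⟨h1, h2⟩
  · rw [h1, h2, Complex.one_re, one_mul]
  · rw [h1, h2, map_inv₀, norm_inv, inv_pow, Real.log_inv, Complex.neg_re, Complex.one_re]
    ring
  · rw [h1, h2, one_pow, Real.log_one, zero_mul]

/-- The factor for a quadratic character. -/
lemma quad_piece (S : Setup ι F K H n c) (h : IsChar K H χ)
    (h2 : ∀ σ, Fixes K σ → (χ σ) ^ 2 = 1) {w W : ℕ} (hw : RootsOf K χ w)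
    (hW : IsTorsionOrder H W) {θ : Qbar} (hθ : RelUnit ι K χ θ) (m : ℕ) :
    ∃ lam : Qbar, Piece K H W lam ∧ ∀ g : GQ, Fixes K g →
      (w : ℝ) * Real.log (‖ι (g (lam ^ W))‖ ^ 2) =
        W * m * ((χ g).re * Real.log (‖ι θ‖ ^ 2)) := by
  obtain ⟨k, hk⟩ := rootsOf_dvd S h hW hw
  obtain ⟨mu, hmu⟩ := IsAlgClosed.exists_pow_nat_eq θ hw.1
  have hmu0 : mu ≠ 0 := by
    rintro rfl
    rw [zero_pow hw.1.ne'] at hmu
    exact hθ.ne hmu.symm
  have hlamW : (mu ^ m) ^ W = θ ^ (k * m) := by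
    rw [← pow_mul, hk, ← hmu, ← pow_mul]
    congr 1
    ring
  have hθH : θ ∈ H := mem_H_of_fixed S h hθ.fixed
  have hcase : ∀ g : GQ, Fixes K g → (χ g = 1 ∧ g θ = θ) ∨ (χ g = -1 ∧ g θ = θ⁻¹) := by
    intro g hg
    rcases sq_one (h2 g hg) with h3 | h3
    · exact Or.inl ⟨h3, hθ.fixed g hg h3⟩
    · exact Or.inr ⟨h3, hθ.moved g hg h3⟩
  -- the action on `mu`
  have hfix : ∀ g : GQ, Fixes K g → χ g = 1 → ∀ v : Qbar, v ^ w = 1 → g v = v := by
    intro g hg h3 v hv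
    exact ((hw.2 v).2 hv).2 g hg h3
  have hinv : ∀ g : GQ, Fixes K g → χ g = -1 → ∀ v : Qbar, v ^ w = 1 → g v = v⁻¹ := by
    intro g hg h3 v hv
    exact root_inv S h h2 hw hg h3 hv
  have hact : ∀ g : GQ, Fixes K g → ∃ v : Qbar, v ^ w = 1 ∧
      ((χ g = 1 ∧ g mu = v * mu) ∨ (χ g = -1 ∧ g mu = v * mu⁻¹)) := by
    intro g hg
    rcases hcase g hg with ⟨h3, h4⟩ | ⟨h3, h4⟩
    · refine ⟨g mu / mu, ?_, Or.inl ⟨h3, (div_mul_cancel₀ _ hmu0).symm⟩⟩
      rw [div_pow, ← map_pow, hmu, h4, div_self hθ.ne]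
    · refine ⟨g mu * mu, ?_, Or.inr ⟨h3, ?_⟩⟩
      · rw [mul_pow, ← map_pow, hmu, h4, inv_mul_cancel₀ hθ.ne]
      · rw [mul_assoc, mul_inv_cancel₀ hmu0, mul_one]
  have hcomm : ∀ σ τ : GQ, Fixes K σ → Fixes K τ → σ (τ mu) = τ (σ mu) := by
    intro σ τ hσ hτ
    obtain ⟨u, hu, hu2⟩ := hact σ hσ
    obtain ⟨v, hv, hv2⟩ := hact τ hτ
    rcases hu2 with ⟨hu3, hu4⟩ | ⟨hu3, hu4⟩ <;> rcases hv2 with ⟨hv3, hv4⟩ | ⟨hv3, hv4⟩
    · rw [hv4, hu4, map_mul, map_mul, hv4, hu4, hfix σ hσ hu3 v hv, hfix τ hτ hv3 u hu]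
      ring
    · rw [hv4, hu4, map_mul, map_mul, map_inv₀, hv4, hu4, hfix σ hσ hu3 v hv,
        hinv τ hτ hv3 u hu, mul_inv]
      ring
    · rw [hv4, hu4, map_mul, map_mul, map_inv₀, hv4, hu4, hinv σ hσ hu3 v hv,
        hfix τ hτ hv3 u hu, mul_inv]
      ring
    · rw [hv4, hu4, map_mul, map_mul, map_inv₀, map_inv₀, hv4, hu4, hinv σ hσ hu3 v hv,
        hinv τ hτ hv3 u hu, mul_inv, mul_inv, inv_inv]
      ring
  refine ⟨mu ^ m, ⟨pow_ne_zero m hmu0, ?_, ?_, ?_, ?_, ?_⟩, ?_⟩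
  · rw [hlamW]
    exact pow_mem hθH _
  · rw [hlamW]
    exact hθ.int.pow _
  · rw [hlamW, ← inv_pow]
    exact hθ.inv_int.pow _
  · intro w₁ hw₁
    rw [hlamW, map_pow, norm_pow, hθ.norm w₁, one_pow]
    obtain ⟨x, hx, hx2⟩ := S.fields.complex
    refine ⟨⟨x, hx, ?_⟩, ⟨x, hx, ?_⟩⟩
    · intro h3
      rw [← h3] at hx2
      exact hx2 (hw₁ x hx)
    · intro h3
      have h4 := hw₁ x hx
      rw [h3, Complex.conj_im, neg_eq_zero] at h4
      exact hx2 h4
  · intro σ τ hσ hτ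
    rw [map_pow, map_pow, map_pow, map_pow, hcomm σ τ hσ hτ]
  · intro g hg
    have h3 := log_char (ι := ι) (g := g) (θ := θ) (x := χ g) (by
      rcases hcase g hg with h3 | h3
      · exact Or.inl h3
      · exact Or.inr (Or.inl h3))
    rw [hlamW, map_pow, map_pow, norm_pow, ← pow_mul, mul_comm (k * m) 2, pow_mul, Real.log_pow, h3,
      hk]
    push_cast
    ring

/-- The factor for a character of order four. -/
lemma quart_piece (S : Setup ι F K H n c) (h : IsChar K H χ) {K' E' : Sub} {χ' : GQ → ℂ}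
    (hC : Companion ι K χ c K' E' χ') {W : ℕ} {θ : Qbar} (hθ : RelUnit ι K' χ' θ) (m : ℕ) :
    ∃ lam : Qbar, Piece K H W lam ∧ ∀ g : GQ, Fixes K g →
      Real.log (‖ι (g (lam ^ W))‖ ^ 2) = W * m * ((χ g).re * Real.log (‖ι θ‖ ^ 2)) := by
  have hFK' : ∀ x ∈ F, x ∈ K' := by
    intro x hx
    apply mem_of_fixed
    intro σ hσ
    obtain ⟨τ, h1, _, h3⟩ := (hC.field σ).1 hσ
    rcases h3 with rfl | rfl
    · exact K_F S h1 x hx
    · exact (c_F S).mul (K_F S h1) x hx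
  have hreal : ∀ x ∈ K', (starRingEnd ℂ) (ι x) = ι x := by
    intro x hx
    have h1 : Fixes K' c := (hC.field c).2
      ⟨1, Fixes.one K, by rw [h.map_one, one_pow], Or.inr (mul_one c).symm⟩
    rw [← S.conj, h1 x hx]
  have hin : ∀ g : GQ, Fixes K g → (χ g) ^ 2 = 1 → Fixes K' g := fun g hg hg2 =>
    (hC.field g).2 ⟨g, hg, hg2, Or.inl rfl⟩
  have hθH : θ ∈ H := by
    apply mem_of_fixed
    intro σ hσ
    have hσK : Fixes K σ := hσ.mono S.dih.le
    have h1 := h.one σ hσK hσ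
    refine hθ.fixed σ (hin σ hσK (by rw [h1, one_pow])) ?_
    rw [(hC.char σ hσK (by rw [h1, one_pow])).1, h1]
  refine ⟨θ ^ m, ⟨pow_ne_zero m hθ.ne, ?_, ?_, ?_, ?_, ?_⟩, ?_⟩
  · exact pow_mem (pow_mem hθH _) _
  · exact (hθ.int.pow _).pow _
  · rw [← inv_pow, ← inv_pow]
    exact (hθ.inv_int.pow _).pow _
  · intro w hw
    rw [map_pow, map_pow, norm_pow, norm_pow, hθ.norm w, one_pow, one_pow]
    obtain ⟨x, hx, hx2⟩ := other_of_real S hw
    refine ⟨⟨x, hFK' x hx, hx2⟩, ⟨x, hFK' x hx, ?_⟩⟩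
    rw [hreal x (hFK' x hx)]
    exact hx2
  · intro σ τ hσ hτ
    exact abelian S hσ hτ (pow_mem hθH m)
  · intro g hg
    have h3 := log_char (ι := ι) (g := g) (θ := θ) (x := χ g) (by
      have h4 := h.pow_four S hg
      have h5 : (χ g) ^ 2 = 1 ∨ (χ g) ^ 2 = -1 := sq_one (by rw [← pow_mul]; exact h4)
      rcases h5 with h5 | h5
      · rcases sq_one h5 with h6 | h6
        · refine Or.inl ⟨h6, hθ.fixed g (hin g hg h5) ?_⟩
          rw [(hC.char g hg h5).1, h6]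
        · refine Or.inr (Or.inl ⟨h6, hθ.moved g (hin g hg h5) ?_⟩)
          rw [(hC.char g hg h5).1, h6]
      · refine Or.inr (Or.inr ⟨?_, ?_⟩)
        · have h6 := congrArg Complex.im h5
          have h7 := congrArg Complex.re h5
          simp only [pow_two, Complex.mul_im, Complex.mul_re, Complex.neg_im, Complex.one_im,
            Complex.neg_re, Complex.one_re] at h6 h7
          have h8 : (χ g).re * (χ g).im = 0 := by linarith
          rcases mul_eq_zero.1 h8 with h9 | h9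
          · exact h9
          · rw [h9] at h7
            nlinarith [mul_self_nonneg (χ g).re]
        · have h6 : ¬ Fixes K' g := by
            intro h7
            obtain ⟨τ, h8, h9, h10⟩ := (hC.field g).1 h7
            rcases h10 with rfl | rfl
            · rw [h9] at h5
              norm_num at h5
            · exact not_K_mul S (c_K S) h8 hg
          have h7 : ∃ x ∈ K', g x ≠ x := by
            unfold Fixes at h6
            push Not at h6
            exact h6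
          obtain ⟨x, hx, hx2⟩ := h7
          refine hθ.norm (ι.comp (g : Qbar →+* Qbar)) ⟨⟨x, hx, ?_⟩, ⟨x, hx, ?_⟩⟩
          · exact fun h8 => hx2 (ι.injective h8)
          · rw [hreal x hx]
            exact fun h8 => hx2 (ι.injective h8))
    rw [map_pow, map_pow, map_pow, map_pow, norm_pow, norm_pow, ← pow_mul, ← pow_mul,
      show m * (W * 2) = 2 * (m * W) by ring, pow_mul, Real.log_pow, h3]
    push_cast
    ring

end

end Pool.Agent.K4H33.SD
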